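import Pool.Agent.N240.TS.Slopes
import Pool.Agent.N240.S.One

set_option autoImplicit false

open MeasureTheory
open scoped Pointwise

namespace Pool.Agent.N240.TS

open Pool.Agent.N240.S

variable {d : ℕ}

/-- the lower corner of the small cube -/
noncomputable def low (r : ℝ) (v : Fin d → ℝ) : Fin d → ℝ := fun j => if v j ≤ 1 / 2 then v j else v j - r

/-- the small cube with the point `v` as a vertex, contained in the unit cube -/
def cube (r : ℝ) (v : Fin d → ℝ) : Set (Fin d → ℝ) := Set.Icc (low r v) (low r v + fun _ => r)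

theorem cube_unit {r : ℝ} (hr : 0 < r) (hr1 : r ≤ 1 / 2) {v : Fin d → ℝ}
    (hv : ∀ j, 0 ≤ v j ∧ v j ≤ 1) {w : Fin d → ℝ} (hw : w ∈ cube r v) (j : Fin d) :
    0 ≤ w j ∧ w j ≤ 1 := by
  have h1 := hw.1 j
  have h2 := hw.2 j
  rw [Pi.add_apply] at h2
  unfold low at h1 h2
  have h3 := hv j
  split_ifs at h1 h2 with h
  · constructor <;> linarith [h3.1]
  · push Not at h
    constructor <;> linarith [h3.2]

theorem cube_dist {r : ℝ} (hr : 0 < r) {v : Fin d → ℝ} {w : Fin d → ℝ} (hw : w ∈ cube r v) :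
    dist w v ≤ r := by
  rw [dist_pi_le_iff hr.le]
  intro j
  have h1 := hw.1 j
  have h2 := hw.2 j
  rw [Pi.add_apply] at h2
  unfold low at h1 h2
  rw [Real.dist_eq, abs_le]
  split_ifs at h1 h2 with h
  · constructor <;> linarith
  · constructor <;> linarith

theorem cube_vol {r : ℝ} (hr : 0 < r) (v : Fin d → ℝ) :
    volume (cube r v) = ENNReal.ofReal (r ^ d) := by
  unfold cube
  rw [Real.volume_Icc_pi]
  have h1 : ∀ i : Fin d, (low r v + fun _ => r : Fin d → ℝ) i - low r v i = r := fun i => by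
    rw [Pi.add_apply]; ring
  simp only [h1]
  rw [Finset.prod_const, Finset.card_univ, Fintype.card_fin, ENNReal.ofReal_pow hr.le]

theorem cube_meas (r : ℝ) (v : Fin d → ℝ) : MeasurableSet (cube r v) := measurableSet_Icc

/-- the volume of the set of the slopes -/
theorem slopes_vol {ι : Type} [Fintype ι] {r : ℝ} (hr : 0 < r) (v : ι → Fin d → ℝ)
    (hsep : ∀ i j, i ≠ j → 2 * r < dist (v i) (v j)) :
    ENNReal.ofReal (Fintype.card ι * r ^ d) ≤ volume (⋃ i, cube r (v i)) := by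
  rw [measure_iUnion ?_ (fun i => cube_meas r (v i))]
  · rw [tsum_fintype]
    simp only [cube_vol hr]
    rw [Finset.sum_const, Finset.card_univ, nsmul_eq_mul, ENNReal.ofReal_mul (by positivity),
      ENNReal.ofReal_natCast]
  · intro i j hij
    rw [Function.onFun, Set.disjoint_left]
    intro w h1 h2
    have h3 := cube_dist hr h1
    have h4 := cube_dist hr h2
    have h5 := hsep i j hij
    have h6 := dist_triangle (v i) w (v j)
    rw [dist_comm (v i) w] at h6
    linarith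

theorem slopes_vol_le {ι : Type} [Fintype ι] {r : ℝ} (hr : 0 < r) (hr1 : r ≤ 1 / 2)
    (v : ι → Fin d → ℝ) (hv : ∀ i j, 0 ≤ v i j ∧ v i j ≤ 1)
    (hsep : ∀ i j, i ≠ j → 2 * r < dist (v i) (v j)) :
    (Fintype.card ι : ℝ) * r ^ d ≤ 1 := by
  have h1 := slopes_vol hr v hsep
  have h2 : volume (⋃ i, cube r (v i)) ≤ volume (Set.Icc (0 : Fin d → ℝ) 1) := by
    refine measure_mono (Set.iUnion_subset fun i w hw => ?_)
    have h := cube_unit hr hr1 (hv i) hw
    exact ⟨fun j => (h j).1, fun j => (h j).2⟩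
  have h3 : volume (Set.Icc (0 : Fin d → ℝ) 1) = 1 := by
    rw [Real.volume_Icc_pi]
    simp
  rw [h3] at h2
  have h4 := h1.trans h2
  rwa [← ENNReal.ofReal_one, ENNReal.ofReal_le_ofReal_iff one_pos.le] at h4

theorem ball_sub_tube {n : ℕ} {δ r : ℝ} {a e : EuclideanSpace ℝ (Fin n)} (he : ‖e‖ = 1)
    (hr : r ≤ 1 / 2) (hrδ : r ≤ δ) : Metric.ball a r ⊆ tube δ a e := by
  intro y hy
  rw [Metric.mem_ball, dist_eq_norm] at hy
  have h1 : |inner ℝ (y - a) e| ≤ ‖y - a‖ := by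
    have := abs_real_inner_le_norm (y - a) e
    rwa [he, mul_one] at this
  refine ⟨by linarith, ?_⟩
  have h6 : ‖(y - a) - (inner ℝ (y - a) e : ℝ) • e‖ ≤ ‖y - a‖ := by
    have h7 : ‖(y - a) - (inner ℝ (y - a) e : ℝ) • e‖ ^ 2 ≤ ‖y - a‖ ^ 2 := by
      rw [norm_sub_sq_real, inner_smul_right, norm_smul, he, Real.norm_eq_abs, mul_one, sq_abs]
      nlinarith [sq_nonneg (inner ℝ (y - a) e : ℝ)]
    exact (pow_le_pow_iff_left₀ (norm_nonneg _) (norm_nonneg _) two_ne_zero).1 h7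
  linarith

theorem fam (d : ℕ) (hd : 1 ≤ d) (ε : ℝ) (hε : 0 < ε) (hε1 : ε < 1) : ∃ η κ : ℝ, 0 < η ∧ 0 < κ ∧
    ∀ R : ℝ, ∃ c : ℝ, 0 < c ∧ ∀ δ : ℝ, 0 < δ → δ < 1 → ∀ (ι : Type) [Fintype ι] [Nonempty ι]
      (a e : ι → EuclideanSpace ℝ (Fin (d + 1))), (∀ i, Cone (e i)) →
      (∀ i j, i ≠ j → δ ≤ ‖e i - e j‖) → (∀ i, tube δ (a i) (e i) ⊆ Metric.closedBall 0 R) →
      volume {t : ℝ | ¬ Structured ((Fintype.card ι : ℝ) ^ η) δ
        (slice (⋃ i, tube δ (a i) (e i)) t)} ≤ ENNReal.ofReal κ →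
      ENNReal.ofReal (c * (δ ^ d * (Fintype.card ι : ℝ) ^ (1 - ε))) ≤
        volume (⋃ i, tube δ (a i) (e i)) := by
  set k : ℕ := ⌈2 / ε⌉₊ with hk
  have hkε : 2 ≤ k * ε := by
    rw [← div_le_iff₀ hε]; exact Nat.le_ceil _
  have hk1 : 1 ≤ k := by
    rw [hk, Nat.one_le_ceil_iff]; positivity
  have hk0 : (1 : ℝ) ≤ k := by exact_mod_cast hk1
  obtain ⟨C, hC⟩ := one d k hk1
  obtain ⟨Z, hZ⟩ := thick (n := d + 1) (√((d : ℝ) + 1))
  set s : ℝ := √((d : ℝ) + 1) with hs
  have hs1 : 1 ≤ s := by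
    rw [hs, Real.one_le_sqrt]; linarith [Nat.cast_nonneg (α := ℝ) d]
  have hs0 : 0 < s := by linarith
  set ρ : ℝ := 1 / s with hρd
  have hρ : 0 < ρ := by positivity
  have hρ1 : ρ ≤ 1 := by rw [hρd, div_le_one hs0]; exact hs1
  refine ⟨1 / (2 * (C + 1)), ρ / (64 * (k + 1)), by positivity, by positivity, fun R => ?_⟩
  set η : ℝ := 1 / (2 * (C + 1)) with hη
  have hηC : 2 * η * C ≤ 1 := by
    have h1 : 2 * η * C = C / (C + 1) := by
      rw [hη]; field_simp
    rw [h1, div_le_one (by positivity)]; linarith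
  set δ₀ : ℝ := ρ / (16 * k) with hδ₀
  have hδ₀0 : 0 < δ₀ := by positivity
  have hδ₀1 : δ₀ ≤ 1 / 2 := by
    rw [hδ₀, div_le_iff₀ (by positivity)]; nlinarith
  set c₁ : ℝ := (1 / (8 * s)) ^ d * (ρ / (16 * k)) ^ d / (2 * QQ R ρ + 1) with hc₁
  have hc₁0 : 0 < c₁ := by positivity
  set G : ℝ := (((k : ℝ) + 1) ^ d) ^ C with hG
  have hG0 : 0 < G := by positivity
  set c₂ : ℝ := min 1 (c₁ ^ k / (2 * G)) with hc₂
  have hc₂0 : 0 < c₂ := lt_min one_pos (by positivity)
  have hc₂1 : c₂ ≤ 1 := min_le_left _ _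
  set c₄ : ℝ := (volume (Metric.ball (0 : EuclideanSpace ℝ (Fin (d + 1))) δ₀)).toReal with hc₄
  have hc₄0 : 0 < c₄ := ENNReal.toReal_pos (Metric.measure_ball_pos _ _ hδ₀0).ne'
    measure_ball_lt_top.ne
  refine ⟨min (ρ / (32 * (k + 1)) * c₂ / (Z + 1)) (c₄ / (8 * s) ^ d),
    lt_min (by positivity) (by positivity), ?_⟩
  intro δ hδ hδ1 ι _ _ a e he hsep hR hbad
  set K : Set (EuclideanSpace ℝ (Fin (d + 1))) := ⋃ i, tube δ (a i) (e i) with hKd
  set N : ℝ := (Fintype.card ι : ℝ) with hN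
  have hN1 : 1 ≤ N := by
    rw [hN]; exact_mod_cast Fintype.card_pos
  have hN0 : 0 < N := by linarith
  have hNe : 0 < N ^ (1 - ε) := Real.rpow_pos_of_pos hN0 _
  set r : ℝ := δ / (8 * s) with hr
  have hr0 : 0 < r := by positivity
  have hr1 : r ≤ 1 / 2 := by
    rw [hr, div_le_iff₀ (by positivity)]; nlinarith
  have hsl : ∀ i j, i ≠ j → 2 * r < dist (slope (e i)) (slope (e j)) := by
    intro i j hij
    have h1 := (hsep i j hij).trans (sep (he i) (he j))
    rw [← hs] at h1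
    have h2 : 2 * r = δ / (4 * s) := by rw [hr]; field_simp; norm_num
    rw [h2, div_lt_iff₀ (by positivity)]
    nlinarith
  have hsu : ∀ i j, 0 ≤ slope (e i) j ∧ slope (e i) j ≤ 1 := fun i j => slope_mem (he i) j
  rcases le_or_gt δ δ₀ with hle | hgt
  · set V : Set (Fin d → ℝ) := ⋃ i, cube r (slope (e i)) with hV
    have key := hC ρ R (N * r ^ d) δ (N ^ η) (c₂ * N ^ (1 - ε)) hρ hρ1 (by positivity) hδ hle
      (by positivity) K (Set.iUnion_subset hR) V ?_ (slopes_vol hr0 _ hsl) ?_ hbad ?_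
    · have h1 := key.trans (hZ δ K hδ ?_)
      · have h2 : ENNReal.ofReal (ρ / (32 * (k + 1)) * (c₂ * N ^ (1 - ε)) * δ ^ d) =
            ((Z + 1 : ℕ) : ENNReal) *
              ENNReal.ofReal (ρ / (32 * (k + 1)) * c₂ / (Z + 1) * (δ ^ d * N ^ (1 - ε))) := by
          rw [← ENNReal.ofReal_natCast, ← ENNReal.ofReal_mul (by positivity)]
          congr 1
          push_cast
          field_simp
        rw [h2] at h1
        have h3 : ((Z : ℕ) : ENNReal) * volume K ≤ ((Z + 1 : ℕ) : ENNReal) * volume K := by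
          gcongr
          exact Nat.le_succ Z
        have h4 := h1.trans h3
        rw [ENNReal.mul_le_mul_iff_right (by simp) (ENNReal.natCast_ne_top _)] at h4
        refine le_trans (ENNReal.ofReal_le_ofReal ?_) h4
        exact mul_le_mul_of_nonneg_right (min_le_left _ _) (by positivity)
      · intro x hx
        obtain ⟨i, hi⟩ := Set.mem_iUnion.1 hx
        obtain ⟨x', h1, h2⟩ := tube_inner hδ hδ1 (he i).1 hi
        exact ⟨x', h1, h2.trans (Set.subset_iUnion (fun i => tube δ (a i) (e i)) i)⟩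
    · intro v hv j
      obtain ⟨i, hi⟩ := Set.mem_iUnion.1 hv
      exact cube_unit hr0 hr1 (hsu i) hi j
    · intro v hv
      obtain ⟨i, hi⟩ := Set.mem_iUnion.1 hv
      refine ⟨fun j => a i j.castSucc - a i (Fin.last d) * v j, a i (Fin.last d) - ρ / 2,
        fun t ht => ?_⟩
      refine Set.mem_iUnion.2 ⟨i, ?_⟩
      refine seg_mem hδ (he i) (fun j => cube_unit hr0 hr1 (hsu i) hi j) ?_ ?_
      · have h1 := cube_dist hr0 hi
        rw [← hs]
        calc s * dist v (slope (e i)) ≤ s * r := mul_le_mul_of_nonneg_left h1 hs0.le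
          _ = δ / 8 := by rw [hr]; field_simp
          _ ≤ δ := by linarith
      · rw [← hs]
        have h1 : 1 / (2 * s) = ρ / 2 := by rw [hρd]; field_simp
        rw [h1, abs_le]
        constructor <;> linarith [ht.1, ht.2]
    · have e1 : N * r ^ d * (ρ / (16 * k * δ)) ^ d / (2 * QQ R ρ + 1) = c₁ * N := by
        have h1 : r ^ d * (ρ / (16 * k * δ)) ^ d = (1 / (8 * s)) ^ d * (ρ / (16 * k)) ^ d := by
          rw [← mul_pow, ← mul_pow]
          congr 1
          rw [hr]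
          field_simp
        rw [mul_assoc, h1, hc₁]
        ring
      have e2 : (N ^ η * (N ^ η * ((k : ℝ) + 1) ^ d)) ^ C = N ^ (2 * η * C) * G := by
        have h1 : N ^ (2 * η * C) = (N ^ η * N ^ η) ^ C := by
          rw [← Real.rpow_add hN0, ← Real.rpow_natCast (N ^ (η + η)) C, ← Real.rpow_mul hN0.le]
          congr 1; ring
        rw [h1, hG, ← mul_pow, ← mul_assoc]
      have e3 : (c₂ * N ^ (1 - ε)) ^ (k + 1) = c₂ ^ (k + 1) * N ^ ((1 - ε) * (k + 1)) := by
        rw [mul_pow, ← Real.rpow_natCast (N ^ (1 - ε)) (k + 1), ← Real.rpow_mul hN0.le]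
        push_cast
        rfl
      rw [e1, e2, e3]
      have h3 : c₂ ^ (k + 1) ≤ c₁ ^ k / (2 * G) := by
        calc c₂ ^ (k + 1) ≤ c₂ ^ 1 := pow_le_pow_of_le_one hc₂0.le hc₂1 (by omega)
          _ = c₂ := pow_one _
          _ ≤ _ := min_le_right _ _
      have h4 : N ^ (2 * η * C) * N ^ ((1 - ε) * (k + 1)) ≤ N ^ k := by
        rw [← Real.rpow_add hN0, ← Real.rpow_natCast N k]
        apply Real.rpow_le_rpow_of_exponent_le hN1
        nlinarith
      have h5 : 0 < N ^ k := by positivity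
      calc N ^ (2 * η * C) * G * (c₂ ^ (k + 1) * N ^ ((1 - ε) * (k + 1)))
          = (G * c₂ ^ (k + 1)) * (N ^ (2 * η * C) * N ^ ((1 - ε) * (k + 1))) := by ring
        _ ≤ (G * (c₁ ^ k / (2 * G))) * N ^ k := by
            apply mul_le_mul _ h4 (by positivity) (by positivity)
            exact mul_le_mul_of_nonneg_left h3 hG0.le
        _ = c₁ ^ k / 2 * N ^ k := by
            congr 1; field_simp
        _ < c₁ ^ k * N ^ k := by
            apply mul_lt_mul_of_pos_right _ h5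
            linarith [pow_pos hc₁0 k]
        _ = (c₁ * N) ^ k := by rw [mul_pow]
  · obtain ⟨i⟩ := ‹Nonempty ι›
    have h1 : Metric.ball (a i) δ₀ ⊆ K :=
      (ball_sub_tube (he i).1 hδ₀1 hgt.le).trans
        (Set.subset_iUnion (fun i => tube δ (a i) (e i)) i)
    have h2 : N * r ^ d ≤ 1 := slopes_vol_le hr0 hr1 _ hsu hsl
    have h3 : δ ^ d * N ^ (1 - ε) ≤ (8 * s) ^ d := by
      have h4 : N ^ (1 - ε) ≤ N := by
        calc N ^ (1 - ε) ≤ N ^ (1 : ℝ) := Real.rpow_le_rpow_of_exponent_le hN1 (by linarith)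
          _ = N := Real.rpow_one N
      have h5 : r ^ d = δ ^ d / (8 * s) ^ d := by rw [hr, div_pow]
      rw [h5, mul_div_assoc', div_le_one (by positivity)] at h2
      calc δ ^ d * N ^ (1 - ε) ≤ δ ^ d * N := mul_le_mul_of_nonneg_left h4 (by positivity)
        _ = N * δ ^ d := mul_comm _ _
        _ ≤ _ := h2
    calc ENNReal.ofReal (min (ρ / (32 * (k + 1)) * c₂ / (Z + 1)) (c₄ / (8 * s) ^ d) *
          (δ ^ d * N ^ (1 - ε))) ≤ ENNReal.ofReal c₄ := by
          apply ENNReal.ofReal_le_ofReal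
          calc _ ≤ c₄ / (8 * s) ^ d * (8 * s) ^ d := by
                apply mul_le_mul (min_le_right _ _) h3 (by positivity) (by positivity)
            _ = c₄ := by field_simp
      _ = volume (Metric.ball (0 : EuclideanSpace ℝ (Fin (d + 1))) δ₀) :=
          ENNReal.ofReal_toReal measure_ball_lt_top.ne
      _ = volume (Metric.ball (a i) δ₀) := (Measure.addHaar_ball_center volume (a i) δ₀).symm
      _ ≤ volume K := measure_mono h1

end Pool.Agent.N240.TS
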