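import Pool.Agent.N240.S.Fin

set_option autoImplicit false

open MeasureTheory
open scoped Pointwise

namespace Pool.Agent.N240.TS

open Pool.Agent.N240.S

/-- the closed cylinder of length `1` and radius `δ` with centre `a` and direction `e` -/
def tube {n : ℕ} (δ : ℝ) (a e : EuclideanSpace ℝ (Fin n)) : Set (EuclideanSpace ℝ (Fin n)) :=
  {y | |inner ℝ (y - a) e| ≤ 1 / 2 ∧ ‖(y - a) - (inner ℝ (y - a) e) • e‖ ≤ δ}

/-- sets which contain balls near all their points -/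
theorem thick {n : ℕ} (r : ℝ) : ∃ Z : ℕ, ∀ (δ : ℝ) (K : Set (EuclideanSpace ℝ (Fin n))), 0 < δ →
    (∀ x ∈ K, ∃ x', ‖x - x'‖ ≤ δ ∧ Metric.closedBall x' (δ / 4) ⊆ K) →
    volume (Metric.thickening (r * δ) K) ≤ Z * volume K := by
  obtain ⟨F, hF, hFc⟩ := (isCompact_closedBall (0 : EuclideanSpace ℝ (Fin n)) (r + 1)).finite_cover_balls
    (e := 1 / 4) (by norm_num)
  obtain ⟨hFf, hFc⟩ := hFc
  refine ⟨hFf.toFinset.card, fun δ K hδ hK => ?_⟩
  have hsub : Metric.thickening (r * δ) K ⊆ ⋃ z ∈ hFf.toFinset, (fun y => y + -(δ • z)) ⁻¹' K := by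
    intro y hy
    rw [Metric.mem_thickening_iff] at hy
    obtain ⟨x, hx, hxy⟩ := hy
    obtain ⟨x', hx', hb⟩ := hK x hx
    have h1 : δ⁻¹ • (y - x') ∈ Metric.closedBall (0 : EuclideanSpace ℝ (Fin n)) (r + 1) := by
      rw [mem_closedBall_zero_iff, norm_smul, norm_inv, Real.norm_eq_abs, abs_of_pos hδ]
      rw [inv_mul_le_iff₀ hδ]
      have h2 : ‖y - x'‖ ≤ ‖y - x‖ + ‖x - x'‖ := norm_sub_le_norm_sub_add_norm_sub y x x'
      rw [dist_eq_norm] at hxy
      nlinarith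
    have h2 := hFc h1
    rw [Set.mem_iUnion₂] at h2
    obtain ⟨z, hz, hz2⟩ := h2
    rw [Set.mem_iUnion₂]
    refine ⟨z, hFf.mem_toFinset.2 hz, ?_⟩
    apply hb
    rw [Metric.mem_ball, dist_eq_norm] at hz2
    rw [Metric.mem_closedBall, dist_eq_norm]
    have h3 : y + -(δ • z) - x' = δ • (δ⁻¹ • (y - x') - z) := by
      rw [smul_sub, smul_smul, mul_inv_cancel₀ hδ.ne', one_smul]
      abel
    rw [h3, norm_smul, Real.norm_eq_abs, abs_of_pos hδ]
    nlinarith
  calc volume (Metric.thickening (r * δ) K) ≤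
      volume (⋃ z ∈ hFf.toFinset, (fun y => y + -(δ • z)) ⁻¹' K) := measure_mono hsub
    _ ≤ ∑ z ∈ hFf.toFinset, volume ((fun y => y + -(δ • z)) ⁻¹' K) := measure_biUnion_finset_le _ _
    _ = ∑ z ∈ hFf.toFinset, volume K := by
        refine Finset.sum_congr rfl fun z _ => ?_
        exact measure_preimage_add_right volume _ K
    _ = hFf.toFinset.card * volume K := by rw [Finset.sum_const, nsmul_eq_mul]

theorem tube_inner {n : ℕ} {δ : ℝ} {a e : EuclideanSpace ℝ (Fin n)} (hδ : 0 < δ) (hδ1 : δ < 1)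
    (he : ‖e‖ = 1) {x : EuclideanSpace ℝ (Fin n)} (hx : x ∈ tube δ a e) :
    ∃ x', ‖x - x'‖ ≤ δ ∧ Metric.closedBall x' (δ / 4) ⊆ tube δ a e := by
  obtain ⟨h1, h2⟩ := hx
  set s : ℝ := inner ℝ (x - a) e with hs
  set w : EuclideanSpace ℝ (Fin n) := (x - a) - s • e with hw
  have hee : inner ℝ e e = (1 : ℝ) := by rw [real_inner_self_eq_norm_sq, he]; norm_num
  have hwe : inner ℝ w e = (0 : ℝ) := by
    rw [hw, inner_sub_left, inner_smul_left, hee, ← hs]; simp
  refine ⟨a + ((1 - δ / 2) * s) • e + (3 / 4 : ℝ) • w, ?_, ?_⟩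
  · have h3 : x - (a + ((1 - δ / 2) * s) • e + (3 / 4 : ℝ) • w) =
        (δ / 2 * s) • e + (1 / 4 : ℝ) • w := by
      have h4 : x = a + s • e + w := by rw [hw]; abel
      rw [h4]
      module
    rw [h3]
    calc _ ≤ ‖(δ / 2 * s) • e‖ + ‖(1 / 4 : ℝ) • w‖ := norm_add_le _ _
      _ = δ / 2 * |s| + 1 / 4 * ‖w‖ := by
          rw [norm_smul, norm_smul, he, Real.norm_eq_abs, Real.norm_eq_abs, abs_mul,
            abs_of_pos (by positivity : 0 < δ / 2), abs_of_pos (by norm_num : (0 : ℝ) < 1 / 4), mul_one]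
      _ ≤ δ := by nlinarith
  · intro z hz
    rw [Metric.mem_closedBall, dist_eq_norm] at hz
    set u : EuclideanSpace ℝ (Fin n) := z - (a + ((1 - δ / 2) * s) • e + (3 / 4 : ℝ) • w) with hu
    have hz1 : z - a = ((1 - δ / 2) * s) • e + (3 / 4 : ℝ) • w + u := by rw [hu]; abel
    have hz2 : inner ℝ (z - a) e = (1 - δ / 2) * s + inner ℝ u e := by
      rw [hz1, inner_add_left, inner_add_left, inner_smul_left, inner_smul_left, hwe, hee]; simp
    have hue : |inner ℝ u e| ≤ δ / 4 := by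
      have := abs_real_inner_le_norm u e
      rw [he, mul_one] at this
      exact this.trans hz
    refine ⟨?_, ?_⟩
    · rw [hz2]
      calc |(1 - δ / 2) * s + inner ℝ u e| ≤ |(1 - δ / 2) * s| + |inner ℝ u e| := abs_add_le _ _
        _ = (1 - δ / 2) * |s| + |inner ℝ u e| := by rw [abs_mul, abs_of_pos (by linarith)]
        _ ≤ 1 / 2 := by nlinarith
    · have h5 : (z - a) - (inner ℝ (z - a) e) • e = (3 / 4 : ℝ) • w + (u - (inner ℝ u e) • e) := by
        rw [hz2, hz1]; module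
      have h6 : ‖u - (inner ℝ u e) • e‖ ≤ ‖u‖ := by
        have h7 : ‖u - (inner ℝ u e) • e‖ ^ 2 ≤ ‖u‖ ^ 2 := by
          rw [norm_sub_sq_real, inner_smul_right, norm_smul, he, Real.norm_eq_abs, mul_one, sq_abs]
          nlinarith [sq_nonneg (inner ℝ u e : ℝ)]
        exact (pow_le_pow_iff_left₀ (norm_nonneg _) (norm_nonneg _) two_ne_zero).1 h7
      rw [h5]
      calc _ ≤ ‖(3 / 4 : ℝ) • w‖ + ‖u - (inner ℝ u e) • e‖ := norm_add_le _ _
        _ ≤ 3 / 4 * ‖w‖ + ‖u‖ := by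
            rw [norm_smul, Real.norm_eq_abs, abs_of_pos (by norm_num : (0 : ℝ) < 3 / 4)]
            linarith
        _ ≤ δ := by linarith

end Pool.Agent.N240.TS
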