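import Pool.Agent.N240.TS.Main

set_option autoImplicit false

open MeasureTheory
open scoped Pointwise

namespace Pool.Agent.N240.TS

open Pool.Agent.N240.S

variable {d : ℕ}

/-- the slope of a direction -/
noncomputable def slope (e : EuclideanSpace ℝ (Fin (d + 1))) : Fin d → ℝ :=
  fun j => e j.castSucc / e (Fin.last d)

/-- directions with slopes in the unit cube -/
def Cone (e : EuclideanSpace ℝ (Fin (d + 1))) : Prop :=
  ‖e‖ = 1 ∧ 0 ≤ e (Fin.last d) ∧ ∀ j : Fin d, 0 ≤ e j.castSucc ∧ e j.castSucc ≤ e (Fin.last d)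

theorem pt_cast (x : Fin d → ℝ) (t : ℝ) (j : Fin d) : pt x t j.castSucc = x j := by
  simp [pt]

theorem ext_pt {x y : EuclideanSpace ℝ (Fin (d + 1))} (h1 : ∀ j : Fin d, x j.castSucc = y j.castSucc)
    (h2 : x (Fin.last d) = y (Fin.last d)) : x = y := by
  ext i
  refine Fin.lastCases h2 (fun i => h1 i) i

theorem last_pos {e : EuclideanSpace ℝ (Fin (d + 1))} (he : Cone e) : 0 < e (Fin.last d) ∧
    e (Fin.last d) ≤ 1 := by
  obtain ⟨h1, h0, h2⟩ := he
  have hle : e (Fin.last d) ≤ 1 := by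
    have := PiLp.norm_apply_le e (Fin.last d)
    rw [h1, Real.norm_eq_abs] at this
    exact (le_abs_self _).trans this
  refine ⟨?_, hle⟩
  by_contra hcon
  push Not at hcon
  have h5 : e (Fin.last d) = 0 := le_antisymm hcon h0
  have h3 : e = 0 := by
    refine ext_pt (fun j => ?_) ?_
    · have := h2 j
      rw [h5] at this
      rw [PiLp.zero_apply]
      linarith [this.1, this.2]
    · rw [h5, PiLp.zero_apply]
  rw [h3, norm_zero] at h1
  exact zero_ne_one h1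

theorem norm_pt_le (x : Fin d → ℝ) (t b : ℝ) (hx : ∀ j, |x j| ≤ b) (ht : |t| ≤ b) :
    ‖pt x t‖ ≤ √((d : ℝ) + 1) * b := by
  have hb : 0 ≤ b := (abs_nonneg t).trans ht
  rw [EuclideanSpace.norm_eq]
  rw [show √((d : ℝ) + 1) * b = √(((d : ℝ) + 1) * b ^ 2) by
    rw [Real.sqrt_mul (by positivity), Real.sqrt_sq hb]]
  apply Real.sqrt_le_sqrt
  rw [Fin.sum_univ_castSucc, pt_last]
  have h1 : ∑ i : Fin d, ‖pt x t i.castSucc‖ ^ 2 ≤ ∑ _i : Fin d, b ^ 2 := by
    refine Finset.sum_le_sum fun i _ => ?_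
    rw [pt_cast, Real.norm_eq_abs]
    exact pow_le_pow_left₀ (abs_nonneg _) (hx i) 2
  rw [Finset.sum_const, Finset.card_univ, Fintype.card_fin, nsmul_eq_mul] at h1
  have h2 : ‖t‖ ^ 2 ≤ b ^ 2 := by
    rw [Real.norm_eq_abs]
    exact pow_le_pow_left₀ (abs_nonneg _) ht 2
  nlinarith

theorem eq_smul {e : EuclideanSpace ℝ (Fin (d + 1))} (he : Cone e) :
    e = e (Fin.last d) • pt (slope e) 1 := by
  have h := (last_pos he).1
  refine ext_pt (fun j => ?_) ?_
  · rw [PiLp.smul_apply, pt_cast, smul_eq_mul]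
    unfold slope
    field_simp
  · rw [PiLp.smul_apply, pt_last, smul_eq_mul, mul_one]

theorem one_le_norm_pt (v : Fin d → ℝ) : 1 ≤ ‖pt v 1‖ := by
  have := PiLp.norm_apply_le (pt v 1) (Fin.last d)
  rw [pt_last] at this
  simpa using this

theorem norm_inv_pt {e : EuclideanSpace ℝ (Fin (d + 1))} (he : Cone e) :
    e (Fin.last d) * ‖pt (slope e) 1‖ = 1 := by
  have h1 := he.1
  rw [eq_smul he, norm_smul] at h1
  rw [Real.norm_eq_abs, abs_of_pos] at h1
  · convert h1 using 2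
  · exact (last_pos he).1

theorem slope_mem {e : EuclideanSpace ℝ (Fin (d + 1))} (he : Cone e) (j : Fin d) :
    0 ≤ slope e j ∧ slope e j ≤ 1 := by
  have h := (last_pos he).1
  unfold slope
  exact ⟨div_nonneg (he.2.2 j).1 h.le, by rw [div_le_one h]; exact (he.2.2 j).2⟩

/-- the slopes of separated directions are separated -/
theorem sep {e f : EuclideanSpace ℝ (Fin (d + 1))} (he : Cone e) (hf : Cone f) :
    ‖e - f‖ ≤ 2 * √((d : ℝ) + 1) * dist (slope e) (slope f) := by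
  set u := pt (slope e) 1 with hu
  set w := pt (slope f) 1 with hw
  have h1 : ‖u - w‖ ≤ √((d : ℝ) + 1) * dist (slope e) (slope f) := by
    have h2 : u - w = pt (slope e - slope f) 0 := by
      refine ext_pt (fun j => ?_) ?_
      · rw [PiLp.sub_apply, pt_cast, pt_cast, pt_cast, Pi.sub_apply]
      · rw [PiLp.sub_apply, pt_last, pt_last, pt_last, sub_self]
    rw [h2]
    refine norm_pt_le _ _ _ (fun j => ?_) (by rw [abs_zero]; exact dist_nonneg)
    rw [Pi.sub_apply, ← Real.dist_eq]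
    exact dist_le_pi_dist _ _ j
  have hup := one_le_norm_pt (slope e)
  have hwp := one_le_norm_pt (slope f)
  rw [← hu] at hup
  rw [← hw] at hwp
  have he1 : e = ‖u‖⁻¹ • u := by
    have h3 : e (Fin.last d) = ‖u‖⁻¹ := by
      have := norm_inv_pt he
      rw [← hu] at this
      rw [eq_inv_of_mul_eq_one_left this]
    rw [← h3]; exact eq_smul he
  have hf1 : f = ‖w‖⁻¹ • w := by
    have h3 : f (Fin.last d) = ‖w‖⁻¹ := by
      have := norm_inv_pt hf
      rw [← hw] at this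
      rw [eq_inv_of_mul_eq_one_left this]
    rw [← h3]; exact eq_smul hf
  have h4 : ‖e - f‖ ≤ 2 * ‖u - w‖ := by
    rw [he1, hf1]
    have h5 : ‖u‖⁻¹ • u - ‖w‖⁻¹ • w = ‖u‖⁻¹ • (u - w) + (‖u‖⁻¹ - ‖w‖⁻¹) • w := by module
    rw [h5]
    have h6 : ‖‖u‖⁻¹ • (u - w)‖ ≤ ‖u - w‖ := by
      rw [norm_smul, norm_inv, norm_norm]
      calc ‖u‖⁻¹ * ‖u - w‖ ≤ 1 * ‖u - w‖ :=
            mul_le_mul_of_nonneg_right (inv_le_one_of_one_le₀ hup) (norm_nonneg _)
        _ = _ := one_mul _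
    have h7 : ‖(‖u‖⁻¹ - ‖w‖⁻¹) • w‖ ≤ ‖u - w‖ := by
      rw [norm_smul, Real.norm_eq_abs]
      have hu0 : 0 < ‖u‖ := by linarith
      have hw0 : 0 < ‖w‖ := by linarith
      have h8 : (‖u‖⁻¹ - ‖w‖⁻¹) = (‖w‖ - ‖u‖) / (‖u‖ * ‖w‖) := by field_simp
      rw [h8, abs_div, abs_of_pos (mul_pos hu0 hw0), div_mul_eq_mul_div, div_le_iff₀ (mul_pos hu0 hw0)]
      have h9 : |‖w‖ - ‖u‖| ≤ ‖u - w‖ := by
        rw [abs_sub_comm]; exact abs_norm_sub_norm_le u w
      calc |‖w‖ - ‖u‖| * ‖w‖ ≤ ‖u - w‖ * ‖w‖ := mul_le_mul_of_nonneg_right h9 hw0.le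
        _ ≤ ‖u - w‖ * (‖u‖ * ‖w‖) := by
            apply mul_le_mul_of_nonneg_left _ (norm_nonneg _)
            nlinarith
    calc _ ≤ _ + _ := norm_add_le _ _
      _ ≤ 2 * ‖u - w‖ := by linarith
  nlinarith

/-- nearby slopes -/
theorem seg_mem {δ : ℝ} (hδ : 0 < δ) {e c : EuclideanSpace ℝ (Fin (d + 1))} (he : Cone e)
    {v : Fin d → ℝ} (hv : ∀ j, 0 ≤ v j ∧ v j ≤ 1) (hvd : √((d : ℝ) + 1) * dist v (slope e) ≤ δ)
    {t : ℝ} (ht : |t - c (Fin.last d)| ≤ 1 / (2 * √((d : ℝ) + 1))) :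
    pt (fun j => (c j.castSucc - c (Fin.last d) * v j) + t * v j) t ∈ tube δ c e := by
  set τ : ℝ := t - c (Fin.last d) with hτ
  have hs0 : 0 < √((d : ℝ) + 1) := by positivity
  have h1 : pt (fun j => (c j.castSucc - c (Fin.last d) * v j) + t * v j) t - c = τ • pt v 1 := by
    refine ext_pt (fun j => ?_) ?_
    · rw [PiLp.sub_apply, pt_cast, PiLp.smul_apply, pt_cast, smul_eq_mul, hτ]; ring
    · rw [PiLp.sub_apply, pt_last, PiLp.smul_apply, pt_last, smul_eq_mul, hτ]; ring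
  have hn : ‖pt v 1‖ ≤ √((d : ℝ) + 1) * 1 := norm_pt_le v 1 1 (fun j => by
    rw [abs_of_nonneg (hv j).1]; exact (hv j).2) (by simp)
  have hτ1 : |τ| ≤ 1 := by
    refine ht.trans ?_
    rw [div_le_one (by positivity)]
    have : 1 ≤ √((d : ℝ) + 1) := by rw [Real.one_le_sqrt]; linarith [Nat.cast_nonneg (α := ℝ) d]
    linarith
  refine ⟨?_, ?_⟩
  · rw [h1]
    calc |inner ℝ (τ • pt v 1) e| ≤ ‖τ • pt v 1‖ * ‖e‖ := abs_real_inner_le_norm _ _
      _ = |τ| * ‖pt v 1‖ := by rw [he.1, mul_one, norm_smul, Real.norm_eq_abs]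
      _ ≤ (1 / (2 * √((d : ℝ) + 1))) * (√((d : ℝ) + 1) * 1) :=
          mul_le_mul ht hn (norm_nonneg _) (by positivity)
      _ = 1 / 2 := by field_simp
  · rw [h1]
    set y : EuclideanSpace ℝ (Fin (d + 1)) := τ • pt v 1 with hy
    set lam : ℝ := τ * ‖pt (slope e) 1‖ with hlam
    have hee : inner ℝ e e = (1 : ℝ) := by rw [real_inner_self_eq_norm_sq, he.1]; norm_num
    have h2 : ‖y - (inner ℝ y e) • e‖ ≤ ‖y - lam • e‖ := by
      have h3 : ‖y - (inner ℝ y e) • e‖ ^ 2 ≤ ‖y - lam • e‖ ^ 2 := by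
        have hA : ‖(inner ℝ y e : ℝ) • e‖ = |(inner ℝ y e : ℝ)| := by
          rw [norm_smul, he.1, mul_one, Real.norm_eq_abs]
        have hB : ‖lam • e‖ = |lam| := by rw [norm_smul, he.1, mul_one, Real.norm_eq_abs]
        rw [norm_sub_sq_real, norm_sub_sq_real, inner_smul_right, inner_smul_right, hA, hB, sq_abs,
          sq_abs]
        nlinarith [sq_nonneg ((inner ℝ y e : ℝ) - lam)]
      exact (pow_le_pow_iff_left₀ (norm_nonneg _) (norm_nonneg _) two_ne_zero).1 h3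
    have h4 : y - lam • e = τ • pt (v - slope e) 0 := by
      have h5 : lam • e = τ • pt (slope e) 1 := by
        conv_lhs => rw [eq_smul he]
        rw [smul_smul, hlam, mul_assoc, mul_comm ‖_‖, norm_inv_pt he, mul_one]
      rw [h5, hy, ← smul_sub]
      congr 1
      refine ext_pt (fun j => ?_) ?_
      · rw [PiLp.sub_apply, pt_cast, pt_cast, pt_cast, Pi.sub_apply]
      · rw [PiLp.sub_apply, pt_last, pt_last, pt_last, sub_self]
    have h6 : ‖pt (v - slope e) 0‖ ≤ √((d : ℝ) + 1) * dist v (slope e) := by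
      refine norm_pt_le _ _ _ (fun j => ?_) (by rw [abs_zero]; exact dist_nonneg)
      rw [Pi.sub_apply, ← Real.dist_eq]
      exact dist_le_pi_dist _ _ j
    calc _ ≤ _ := h2
      _ = |τ| * ‖pt (v - slope e) 0‖ := by rw [h4, norm_smul, Real.norm_eq_abs]
      _ ≤ 1 * ‖pt (v - slope e) 0‖ := mul_le_mul_of_nonneg_right hτ1 (norm_nonneg _)
      _ ≤ δ := by linarith

end Pool.Agent.N240.TS
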